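import Pool.Agent.W896.FD.Tri

/-!
# Triangles in sparse graphs, and circuits of small formal degree
-/

set_option autoImplicit false
set_option maxHeartbeats 1000000

open Finset

namespace Pool.Agent.V11231.TRI

open Pool.Agent.W896.RK Pool.Agent.W896.HP Pool.Agent.W896.FD Pool.Agent.W896.FD.Star
  Pool.Agent.W896.FD.Tri

variable {n b : ℕ}

/-- The graph has at most twice as many edges as vertices. -/
def Sparse {n : ℕ} (G : SimpleGraph (Fin n)) : Prop := G.edgeSet.ncard ≤ 2 * n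

theorem sparse_GT (hb : 4 * b ≤ n) (u : Fin (n + 1)) (c : Fin b × Fin 4 ↪ Fin n)
    (ρ : Equiv.Perm (Fin n)) (z z' : Fin b → Bool) : Sparse (GT u c ρ z z') := by
  classical
  unfold Sparse
  have h1 : (GT u c ρ z z').edgeSet ⊆
      ((univ.image (row u) ∪ univ.image (fun i : Fin b =>
        s(u.succAbove (ρ (c (i, 0))), u.succAbove (ρ (c (i, 2)))))
        : Finset (Sym2 (Fin (n + 1)))) : Set (Sym2 (Fin (n + 1)))) := by
    intro e he
    rw [← bits_true, bits_GT] at he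
    rw [mem_coe, mem_union, mem_image, mem_image]
    by_cases h : ∃ v, row u v = e
    · obtain ⟨v, hv⟩ := h
      exact Or.inl ⟨v, mem_univ _, hv⟩
    · push Not at h
      rw [inS_other u c ρ z z' h] at he
      unfold mbit at he
      rw [decide_eq_true_iff] at he
      obtain ⟨v, w, ⟨i, h1 | h1⟩, h2⟩ := he
      · refine Or.inr ⟨i, mem_univ _, ?_⟩
        rw [h2, h1.1, h1.2]
      · refine Or.inr ⟨i, mem_univ _, ?_⟩
        rw [h2, h1.1, h1.2]
        exact Sym2.eq_swap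
  refine (Set.ncard_le_ncard h1 (finite_toSet _)).trans ?_
  rw [Set.ncard_coe_finset]
  refine (card_union_le _ _).trans ?_
  have e1 : (univ.image (row u)).card ≤ n := by
    refine card_image_le.trans ?_
    rw [card_univ, Fintype.card_fin]
  have e2 : (univ.image (fun i : Fin b =>
        s(u.succAbove (ρ (c (i, 0))), u.succAbove (ρ (c (i, 2)))))).card ≤ b := by
    refine card_image_le.trans ?_
    rw [card_univ, Fintype.card_fin]
  omega

/-- **Triangles.** -/
theorem tri_row (k n : ℕ) (u : Fin (n + 1)) (R : Type) [Fintype R] [Nonempty R]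
    (U : R → Circ (Sym2 (Fin (n + 1))))
    (hU : ∀ r G, Sparse G → (U r).Val (bits G) (U r).out → G.CliqueFree 3)
    (hc : ∀ G : SimpleGraph (Fin (n + 1)), Sparse G → G.CliqueFree 3 →
      Nat.card R ≤ 2 ^ (n / 2 ^ (60 * (k + 1))) * Nat.card {r // (U r).Val (bits G) (U r).out})
    (hd : ∀ r, ∃ d : (U r).G → Fin n → ℕ, IsDeg (U r) (row u) d ∧
      ∑ e, d (U r).out e ≤ k * n) :
    ∃ r, n ≤ 2 ^ (60 * (k + 1)) * (Nat.log 2 (Fintype.card (U r).G) + 1) := by
  classical
  obtain ⟨b, hb⟩ : ∃ b, b = n / 4 := ⟨_, rfl⟩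
  have hb1 : n < 4 * (b + 1) := by rw [hb]; exact Nat.lt_mul_div_succ n (by norm_num)
  have hb2 : 4 * b ≤ n := by rw [hb]; exact Nat.mul_div_le _ _
  obtain ⟨c⟩ : Nonempty (Fin b × Fin 4 ↪ Fin n) := by
    apply Function.Embedding.nonempty_of_card_le
    rw [Fintype.card_prod, Fintype.card_fin, Fintype.card_fin, Fintype.card_fin]
    omega
  refine Star.final (ν := true) k (b := b) (by omega) (row_inj u) (mbit u c) c
    (fun ρ z z' => (GT u c ρ z z').CliqueFree 3) 0 ?_ ?_ R U ?_ ?_ hd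
  · rw [vol_zero]
    exact Nat.one_le_two_pow
  · rintro ρ z z' h ⟨h1, h2⟩
    unfold dst at h
    obtain ⟨i, hi⟩ := card_pos.1 h
    have hi' := (mem_filter.1 hi).2
    cases hz : z i with
    | true =>
      cases hz' : z' i with
      | true => exact hi' (by rw [hz, hz'])
      | false => exact not_free u c ρ z z' hz hz' h1
    | false =>
      cases hz' : z' i with
      | true => exact not_free u c ρ z' z hz' hz h2
      | false => exact hi' (by rw [hz, hz'])
  · intro r ρ z z' h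
    rw [← bits_GT] at h
    exact hU r _ (sparse_GT hb2 u c ρ z z') h
  · intro ρ z
    have := hc _ (sparse_GT hb2 u c ρ z z) (free u c ρ z)
    rwa [bits_GT] at this

/-- One vertex. -/
theorem tri_vertex (k n : ℕ) (u : Fin n) (R : Type) [Fintype R] [Nonempty R]
    (U : R → Circ (Sym2 (Fin n)))
    (hU : ∀ r G, Sparse G → (U r).Val (bits G) (U r).out → G.CliqueFree 3)
    (hc : ∀ G : SimpleGraph (Fin n), Sparse G → G.CliqueFree 3 →
      Nat.card R ≤ 2 ^ (n / 2 ^ (60 * (k + 3))) * Nat.card {r // (U r).Val (bits G) (U r).out})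
    (hd : ∀ r, ∃ d : (U r).G → Sym2 (Fin n) → ℕ, IsDeg (U r) id d ∧
      ∑ v, d (U r).out s(u, v) ≤ k * n) :
    ∃ r, n ≤ 2 ^ (60 * (k + 3)) * (Nat.log 2 (Fintype.card (U r).G) + 1) := by
  classical
  have hk : k + 1 ≤ 2 ^ k := Nat.lt_two_pow_self
  have hpow : 2 ^ (60 * (k + 3)) = 2 ^ 60 * 2 ^ (60 * (k + 2)) := by
    rw [← pow_add]; congr 1; ring
  have hbig : k + 2 ≤ 2 ^ (60 * (k + 3)) := by
    calc k + 2 ≤ 2 ^ k * 2 ^ 1 := by omega
      _ = 2 ^ (k + 1) := by rw [pow_add]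
      _ ≤ _ := Nat.pow_le_pow_right (by norm_num) (by omega)
  rcases Nat.lt_or_ge n (k + 2) with hn | hn
  · obtain ⟨r⟩ := (inferInstance : Nonempty R)
    exact ⟨r, (hn.le.trans hbig).trans (Nat.le_mul_of_pos_right _ (by omega))⟩
  obtain ⟨n', rfl⟩ : ∃ n', n = n' + 1 := ⟨n - 1, by omega⟩
  have hpos : 0 < 2 ^ (60 * (k + 2)) := Nat.two_pow_pos _
  have hq : (n' + 1) / 2 ^ (60 * (k + 3)) ≤ n' / 2 ^ (60 * (k + 1 + 1)) := by
    rw [Nat.le_div_iff_mul_le (Nat.two_pow_pos _)]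
    have h1 : (n' + 1) / 2 ^ (60 * (k + 3)) * 2 ^ (60 * (k + 3)) ≤ n' + 1 :=
      Nat.div_mul_le_self _ _
    have h2 : (n' + 1) / 2 ^ (60 * (k + 3)) * (2 * 2 ^ (60 * (k + 2))) ≤ n' + 1 := by
      refine le_trans (Nat.mul_le_mul_left _ ?_) h1
      rw [hpow]
      exact Nat.mul_le_mul_right _ (by norm_num)
    have e1 : 60 * (k + 1 + 1) = 60 * (k + 2) := by ring
    rw [e1]
    have h3 : (n' + 1) / 2 ^ (60 * (k + 3)) * (2 * 2 ^ (60 * (k + 2))) =
        2 * ((n' + 1) / 2 ^ (60 * (k + 3)) * 2 ^ (60 * (k + 2))) := by ring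
    rw [h3] at h2
    omega
  obtain ⟨r, hr⟩ := tri_row (k + 1) n' u R U hU (fun G hs hG => (hc G hs hG).trans
    (Nat.mul_le_mul_right _ (Nat.pow_le_pow_right (by norm_num) hq))) (fun r => by
      obtain ⟨d, hd1, hd2⟩ := hd r
      refine ⟨_, deg_comp hd1 (row u), ?_⟩
      have h1 : ∑ v, d (U r).out (row u v) ≤ ∑ v, d (U r).out s(u, v) := by
        rw [Fin.sum_univ_succAbove _ u]
        unfold row
        exact Nat.le_add_left _ _
      refine h1.trans (hd2.trans ?_)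
      nlinarith)
  refine ⟨r, ?_⟩
  have e1 : 60 * (k + 1 + 1) = 60 * (k + 2) := by ring
  rw [e1] at hr
  rw [hpow]
  have h4 : 1 ≤ 2 ^ (60 * (k + 2)) * (Nat.log 2 (Fintype.card (U r).G) + 1) :=
    Nat.mul_pos hpos (by omega)
  nlinarith

/-- All bits. -/
theorem tri_total (k n : ℕ) (U : Circ (Sym2 (Fin n)))
    (hU : ∀ G, Sparse G → (U.Val (bits G) U.out ↔ G.CliqueFree 3))
    (hd : ∃ d : U.G → Sym2 (Fin n) → ℕ, IsDeg U id d ∧ ∑ e, d U.out e ≤ k * n ^ 2) :
    n ≤ 2 ^ (60 * (2 * k + 3)) * (Nat.log 2 (Fintype.card U.G) + 1) := by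
  classical
  rcases Nat.eq_zero_or_pos n with hn | hn
  · exact hn.le.trans (Nat.zero_le _)
  obtain ⟨d, hd1, hd2⟩ := hd
  have h1 : ∑ u : Fin n, ∑ v : Fin n, d U.out s(u, v) ≤ 2 * ∑ e, d U.out e := by
    rw [← Fintype.sum_prod_type']
    rw [← sum_fiberwise (univ : Finset (Fin n × Fin n)) (fun x => s(x.1, x.2))
      (fun x => d U.out s(x.1, x.2)), mul_sum]
    refine sum_le_sum (fun e _ => ?_)
    have h2 : ∑ x ∈ univ.filter (fun x : Fin n × Fin n => s(x.1, x.2) = e), d U.out s(x.1, x.2) =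
        ∑ x ∈ univ.filter (fun x : Fin n × Fin n => s(x.1, x.2) = e), d U.out e :=
      sum_congr rfl (fun x hx => by rw [(mem_filter.1 hx).2])
    rw [h2, sum_const, smul_eq_mul]
    apply Nat.mul_le_mul_right
    induction e with
    | _ x y =>
      have h3 : univ.filter (fun z : Fin n × Fin n => s(z.1, z.2) = s(x, y)) ⊆
          {(x, y), (y, x)} := by
        intro z hz
        have := (mem_filter.1 hz).2
        rw [Sym2.eq_iff] at this
        rw [mem_insert, mem_singleton]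
        rcases this with ⟨h4, h5⟩ | ⟨h4, h5⟩
        · exact Or.inl (Prod.ext h4 h5)
        · exact Or.inr (Prod.ext h4 h5)
      exact (card_le_card h3).trans card_le_two
  obtain ⟨u, hu⟩ : ∃ u : Fin n, ∑ v, d U.out s(u, v) ≤ 2 * k * n := by
    by_contra hcon
    push Not at hcon
    have h2 : ∑ u : Fin n, (2 * k * n) < ∑ u : Fin n, ∑ v : Fin n, d U.out s(u, v) := by
      refine sum_lt_sum_of_nonempty ?_ (fun u _ => hcon u)
      exact ⟨⟨0, hn⟩, mem_univ _⟩
    rw [sum_const, card_univ, Fintype.card_fin, smul_eq_mul] at h2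
    have h3 : n * (2 * k * n) = 2 * (k * n ^ 2) := by ring
    omega
  obtain ⟨r, hr⟩ := tri_vertex (2 * k) n u Unit (fun _ => U) (fun _ G hs h => (hU G hs).1 h)
    (fun G hs hG => by
      have h2 : Nat.card {r : Unit // U.Val (bits G) U.out} = 1 := by
        rw [Nat.card_eq_one_iff_unique]
        exact ⟨⟨fun a b => Subtype.ext rfl⟩, ⟨⟨(), (hU G hs).2 hG⟩⟩⟩
      rw [h2, mul_one, Nat.card_unique]
      exact Nat.one_le_two_pow) (fun _ => ⟨d, hd1, hu⟩)
  exact hr

end Pool.Agent.V11231.TRI
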